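import Pool.Agent.Lib.helper11.Higgs

set_option autoImplicit false

namespace Pool.Agent.Results.MP_b124ce_co.RestrictionFailsH

open Set

/-- `f` is an IE-operator on the ground type `α`: (cl1), (cl2), (cl3), (cl4'). -/
def IsIE {α : Type} (f : Set α → Set α) : Prop :=
  (∀ X, X ⊆ f X) ∧ (∀ X Y, X ⊆ Y → f X ⊆ f Y) ∧ (∀ X, f (f X) = f X) ∧
    (∀ X Y : Set α, ∀ p ∈ f Y, p ∉ f (Y \ X) → ∃ x ∈ X, x ∈ f (insert p (Y \ {x})))

/-- Condition (C). -/
def CondC {α : Type} (f : Set α → Set α) : Prop :=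
  ∀ Y : Set α, ∀ p ∈ f Y, ∃ U : Set α,
    Minimal (fun W : Set α => W ⊆ Y ∧ p ∈ f W) U ∧ ∀ x ∈ U, x ∉ f (U \ {x})

/-- Condition (H) for an operator `g` on the ground set `X`. -/
def CondH {α : Type} (X : Set α) (g : Set α → Set α) : Prop :=
  ∀ Y : Set α, Y ⊆ X → ∀ p ∈ X, p ∉ g Y → ∃ V : Set α,
    Maximal (fun W : Set α => Y ⊆ W ∧ W ⊆ X ∧ p ∉ g W) V ∧ g (insert p V) = X

theorem result :
    ¬ (∀ (α : Type) (f : Set α → Set α), IsIE f → CondC f → CondH univ f →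
        ∀ X : Set α, CondH X (fun Y => f Y ∩ X)) := by
  intro H
  obtain ⟨f, h1, h2, h3, h4, hC, hH, hfin, hinf⟩ := Pool.Agent.Lib.H11Higgs.exists_op
  have hPPQ : Pool.Agent.Lib.H11Higgs.P ⊆ Pool.Agent.Lib.H11Higgs.PQ := fun x hx => Or.inl hx
  have key := H Pool.Agent.Lib.H11Higgs.S f ⟨h1, h2, h3, h4⟩ hC (by
      intro Y _ p _ hp
      obtain ⟨V, hV, hV'⟩ := hH Y p hp
      refine ⟨V, ⟨⟨hV.1.1, subset_univ _, hV.1.2⟩, ?_⟩, hV'⟩
      intro W hW hVW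
      exact hV.2 ⟨hW.1, hW.2.2⟩ hVW) Pool.Agent.Lib.H11Higgs.PQ
  obtain ⟨V, ⟨⟨hPV, hV, hpV⟩, hmax⟩, -⟩ := key Pool.Agent.Lib.H11Higgs.P hPPQ (0, 1) (Or.inr rfl) (by
    rintro ⟨h, -⟩
    rw [hfin _ subset_rfl hPPQ (by
      convert Set.finite_empty
      ext n
      simp [Pool.Agent.Lib.H11Higgs.P]) _ subset_rfl] at h
    simp [Pool.Agent.Lib.H11Higgs.P] at h)
  have hp : ((0, 1) : Pool.Agent.Lib.H11Higgs.S) ∉ f V := fun h => hpV ⟨h, Or.inr rfl⟩
  by_cases hf : {n : ℕ | ((n, 1) : Pool.Agent.Lib.H11Higgs.S) ∈ V}.Finite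
  · obtain ⟨n, hn⟩ := (hf.insert 0).infinite_compl.nonempty
    simp only [mem_compl_iff, mem_insert_iff, mem_setOf_eq, not_or] at hn
    have hsub : insert ((n, 1) : Pool.Agent.Lib.H11Higgs.S) V ⊆ Pool.Agent.Lib.H11Higgs.PQ :=
      insert_subset (Or.inr rfl) hV
    have hf' : {m : ℕ | ((m, 1) : Pool.Agent.Lib.H11Higgs.S) ∈
        insert ((n, 1) : Pool.Agent.Lib.H11Higgs.S) V}.Finite := by
      refine (hf.insert n).subset ?_
      rintro m (h | h)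
      · left; simpa using h
      · right; exact h
    have h5 := hfin _ (hPV.trans (subset_insert _ _)) hsub hf' _ subset_rfl
    have h6 := hmax (y := insert (n, 1) V) ⟨hPV.trans (subset_insert _ _), hsub, by
      rintro ⟨h, -⟩
      rw [h5] at h
      rcases h with h | h
      · simp only [Prod.mk.injEq, and_true] at h
        exact hn.1 h.symm
      · exact hp (h1 _ h)⟩ (subset_insert _ _)
    exact hn.2 (h6 (mem_insert _ _))
  · obtain ⟨x, -, hx'⟩ := hinf V hPV hf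
    apply hp
    apply h2 _ _ (diff_subset (t := {x}))
    rw [hx']
    exact mem_univ _

end Pool.Agent.Results.MP_b124ce_co.RestrictionFailsH
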